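import Mathlib

/-!
# Connectoids, their end spaces, and end spaces of graphs

All definitions follow the problem file.
-/

set_option autoImplicit false

universe u

namespace Pool.Agent.MP_6a92a8_co.H94

/-- The data `(S, 𝓕)` inducing a connectoid: a family `fam` of finite subsets of `S` that contains
`∅` and all singletons and is closed under unions of intersecting members. -/
structure Connectoid (S : Type u) where
  /-- the family `𝓕` -/
  fam : Set (Set S)
  finite_of_mem : ∀ F ∈ fam, F.Finite
  union_mem : ∀ F ∈ fam, ∀ F' ∈ fam, (F ∩ F').Nonempty → F ∪ F' ∈ fam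
  empty_mem : ∅ ∈ fam
  singleton_mem : ∀ s : S, {s} ∈ fam

namespace Connectoid

variable {S : Type u} (c : Connectoid S)

/-- `C` is connected: any two of its elements lie in a common member of `𝓕` contained in `C`. -/
def IsConnected (C : Set S) : Prop :=
  ∀ x ∈ C, ∀ y ∈ C, ∃ F ∈ c.fam, x ∈ F ∧ y ∈ F ∧ F ⊆ C

/-- `K` is a component of `S'`, i.e. a maximal connected subset of `S'`. -/
def IsComponent (S' K : Set S) : Prop :=
  Maximal (fun C : Set S => C ⊆ S' ∧ c.IsConnected C) K

/-- `N` is a necklace: a connected set that is the union of finite connected sets `H n`, `n ∈ ℕ`,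
such that `H i` and `H j` intersect if and only if `|i - j| ≤ 1`. -/
def IsNecklace (N : Set S) : Prop :=
  c.IsConnected N ∧ ∃ H : ℕ → Set S, N = ⋃ n, H n ∧
    (∀ n, (H n).Finite ∧ c.IsConnected (H n)) ∧
    ∀ i j, (H i ∩ H j).Nonempty ↔ (i ≤ j + 1 ∧ j ≤ i + 1)

/-- The necklaces of a connectoid. -/
def Necklace : Type u := {N : Set S // c.IsNecklace N}

/-- `T` is the `X`-tail of `N`: the component of `N \ X` that contains all but finitely many
elements of `N`. -/
def IsTail (X N T : Set S) : Prop :=
  c.IsComponent (N \ X) T ∧ (N \ T).Finite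

/-- The `X`-tail of `N` is contained in `K`. -/
def TailIn (X N K : Set S) : Prop :=
  ∃ T, c.IsTail X N T ∧ T ⊆ K

/-- Two necklaces are equivalent if for every finite `X` their `X`-tails lie in a common component
of `S \ X`. -/
def Equivalent (N N' : c.Necklace) : Prop :=
  ∀ X : Set S, X.Finite → ∃ K, c.IsComponent Xᶜ K ∧ c.TailIn X N.1 K ∧ c.TailIn X N'.1 K

end Connectoid

variable {V : Type u} (G : SimpleGraph V)

/-- A ray (one-way infinite path) of a graph. -/
structure Ray where
  /-- the sequence of vertices of the ray -/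
  vert : ℕ → V
  inj : Function.Injective vert
  adj : ∀ n, G.Adj (vert n) (vert (n + 1))

/-- `K` is the vertex set of a component of `G - A`. -/
def IsComp (A K : Set V) : Prop :=
  ∃ κ : (G.induce Aᶜ).ConnectedComponent, K = Subtype.val '' κ.supp

variable {G}

/-- The ray has a tail in `K`. -/
def Ray.TailIn (r : Ray G) (K : Set V) : Prop := ∃ n, ∀ m ≥ n, r.vert m ∈ K

/-- Two rays are equivalent if for every finite `A` they have tails in a common component of
`G - A`. -/
def Ray.Equivalent (r r' : Ray G) : Prop :=
  ∀ A : Set V, A.Finite → ∃ K, IsComp G A K ∧ r.TailIn K ∧ r'.TailIn K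

end Pool.Agent.MP_6a92a8_co.H94
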