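import Mathlib
import Pool.Agent.Lib.MP_6a92a8_co.H94.Defs

set_option autoImplicit false

universe u

namespace Pool.Agent.MP_6a92a8_co.H94

variable {V : Type u} {G : SimpleGraph V}

/-- `x` and `y` are joined by a walk avoiding `A`. -/
def Joined (G : SimpleGraph V) (A : Set V) (x y : V) : Prop :=
  ∃ p : G.Walk x y, ∀ z ∈ p.support, z ∉ A

namespace Joined

variable {A B : Set V} {x y z : V}

theorem refl (hx : x ∉ A) : Joined G A x x :=
  ⟨SimpleGraph.Walk.nil, by simpa using hx⟩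

theorem symm (h : Joined G A x y) : Joined G A y x := by
  obtain ⟨p, hp⟩ := h
  exact ⟨p.reverse, by simpa using hp⟩

theorem trans (h : Joined G A x y) (h' : Joined G A y z) : Joined G A x z := by
  obtain ⟨p, hp⟩ := h
  obtain ⟨q, hq⟩ := h'
  refine ⟨p.append q, fun w hw => ?_⟩
  rw [SimpleGraph.Walk.mem_support_append_iff] at hw
  rcases hw with hw | hw
  · exact hp w hw
  · exact hq w hw

theorem left (h : Joined G A x y) : x ∉ A := by
  obtain ⟨p, hp⟩ := h
  exact hp x p.start_mem_support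

theorem right (h : Joined G A x y) : y ∉ A := h.symm.left

theorem of_adj (h : G.Adj x y) (hx : x ∉ A) (hy : y ∉ A) : Joined G A x y := by
  refine ⟨h.toWalk, fun z hz => ?_⟩
  simp only [SimpleGraph.Adj.toWalk, SimpleGraph.Walk.support_cons,
    SimpleGraph.Walk.support_nil, List.mem_cons, List.not_mem_nil, or_false] at hz
  rcases hz with rfl | rfl
  · exact hx
  · exact hy

theorem anti (hAB : A ⊆ B) (h : Joined G B x y) : Joined G A x y := by
  obtain ⟨p, hp⟩ := h
  exact ⟨p, fun z hz hzA => hp z hz (hAB hzA)⟩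

end Joined

theorem joined_of_walk {A : Set V} {a b : (Aᶜ : Set V)} (p : (G.induce Aᶜ).Walk a b) :
    Joined G A a.1 b.1 := by
  induction p with
  | @nil u => exact Joined.refl u.2
  | @cons u v w h _ ih =>
    have h' : G.Adj u.1 v.1 := by simpa using h
    exact (Joined.of_adj h' u.2 v.2).trans ih

theorem reachable_iff {A : Set V} {x y : V} (hx : x ∈ Aᶜ) (hy : y ∈ Aᶜ) :
    (G.induce Aᶜ).Reachable ⟨x, hx⟩ ⟨y, hy⟩ ↔ Joined G A x y := by
  constructor
  · rintro ⟨p⟩
    exact joined_of_walk p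
  · rintro ⟨p, hp⟩
    exact ⟨p.induce Aᶜ hp⟩

theorem IsComp.subset {A K : Set V} (hK : IsComp G A K) : K ⊆ Aᶜ := by
  obtain ⟨κ, rfl⟩ := hK
  rintro _ ⟨x, -, rfl⟩
  exact x.2

theorem IsComp.joined {A K : Set V} (hK : IsComp G A K) {x y : V} (hx : x ∈ K) (hy : y ∈ K) :
    Joined G A x y := by
  obtain ⟨κ, rfl⟩ := hK
  obtain ⟨x, hx, rfl⟩ := hx
  obtain ⟨y, hy, rfl⟩ := hy
  rw [SimpleGraph.ConnectedComponent.mem_supp_iff] at hx hy
  have h : (G.induce Aᶜ).Reachable x y := by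
    rw [← SimpleGraph.ConnectedComponent.eq, hx, hy]
  exact (reachable_iff x.2 y.2).1 h

theorem IsComp.mem_of_joined {A K : Set V} (hK : IsComp G A K) {x y : V} (hx : x ∈ K)
    (h : Joined G A x y) : y ∈ K := by
  obtain ⟨κ, rfl⟩ := hK
  obtain ⟨x, hx, rfl⟩ := hx
  refine ⟨⟨y, h.right⟩, ?_, rfl⟩
  rw [SimpleGraph.ConnectedComponent.mem_supp_iff] at hx ⊢
  rw [← hx, SimpleGraph.ConnectedComponent.eq]
  exact ((reachable_iff x.2 h.right).2 h).symm

theorem exists_comp {A : Set V} {x : V} (hx : x ∉ A) : ∃ K, IsComp G A K ∧ x ∈ K :=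
  ⟨_, ⟨(G.induce Aᶜ).connectedComponentMk ⟨x, hx⟩, rfl⟩, ⟨x, hx⟩, rfl, rfl⟩

theorem IsComp.eq_of_inter {A K L : Set V} (hK : IsComp G A K) (hL : IsComp G A L)
    (h : (K ∩ L).Nonempty) : K = L := by
  obtain ⟨p, hpK, hpL⟩ := h
  ext x
  exact ⟨fun hx => hL.mem_of_joined hpL (hK.joined hpK hx),
    fun hx => hK.mem_of_joined hpK (hL.joined hpL hx)⟩

namespace Ray

theorem eventually_not_mem (r : Ray G) {A : Set V} (hA : A.Finite) :
    ∃ n, ∀ m ≥ n, r.vert m ∉ A := by
  have h1 : (r.vert ⁻¹' A).Finite := hA.preimage r.inj.injOn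
  obtain ⟨n, hn⟩ := h1.bddAbove
  refine ⟨n + 1, fun m hm hmA => ?_⟩
  have := hn hmA
  omega

theorem joined_of_avoid (r : Ray G) {A : Set V} {n : ℕ} (h : ∀ m ≥ n, r.vert m ∉ A) :
    ∀ m ≥ n, Joined G A (r.vert n) (r.vert m) := by
  intro m hm
  induction m, hm using Nat.le_induction with
  | base => exact Joined.refl (h n le_rfl)
  | succ m hm ih => exact ih.trans (Joined.of_adj (r.adj m) (h m hm) (h (m + 1) (by omega)))

/-- `v` lies in the component of `G - A` in which the ray `r` has a tail. -/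
def InC (A : Set V) (r : Ray G) (v : V) : Prop := ∃ n, ∀ m ≥ n, Joined G A v (r.vert m)

theorem InC.not_mem {A : Set V} {r : Ray G} {v : V} (h : InC A r v) : v ∉ A := by
  obtain ⟨n, hn⟩ := h
  exact (hn n le_rfl).left

theorem InC.of_joined {A : Set V} {r : Ray G} {v w : V} (h : InC A r v) (hw : Joined G A w v) :
    InC A r w := by
  obtain ⟨n, hn⟩ := h
  exact ⟨n, fun m hm => hw.trans (hn m hm)⟩

theorem InC.joined {A : Set V} {r : Ray G} {v w : V} (h : InC A r v) (h' : InC A r w) :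
    Joined G A v w := by
  obtain ⟨n, hn⟩ := h
  obtain ⟨m, hm⟩ := h'
  exact (hn (max n m) (le_max_left _ _)).trans (hm (max n m) (le_max_right _ _)).symm

theorem InC.anti {A B : Set V} (hAB : A ⊆ B) {r : Ray G} {v : V} (h : InC B r v) :
    InC A r v := by
  obtain ⟨n, hn⟩ := h
  exact ⟨n, fun m hm => (hn m hm).anti hAB⟩

theorem inC_of_avoid (r : Ray G) {A : Set V} {n : ℕ} (h : ∀ m ≥ n, r.vert m ∉ A) :
    InC A r (r.vert n) :=
  ⟨n, r.joined_of_avoid h⟩

theorem exists_tailIn (r : Ray G) {A : Set V} (hA : A.Finite) :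
    ∃ K, IsComp G A K ∧ r.TailIn K := by
  obtain ⟨n, hn⟩ := r.eventually_not_mem hA
  obtain ⟨K, hK, hx⟩ := exists_comp (G := G) (hn n le_rfl)
  exact ⟨K, hK, n, fun m hm => hK.mem_of_joined hx (r.joined_of_avoid hn m hm)⟩

theorem TailIn.inter {r : Ray G} {K L : Set V} (h : r.TailIn K) (h' : r.TailIn L) :
    (K ∩ L).Nonempty := by
  obtain ⟨n, hn⟩ := h
  obtain ⟨m, hm⟩ := h'
  exact ⟨r.vert (max n m), hn _ (le_max_left _ _), hm _ (le_max_right _ _)⟩

theorem same_iff {A : Set V} (hA : A.Finite) (r r' : Ray G) :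
    (∃ K, IsComp G A K ∧ r.TailIn K ∧ r'.TailIn K) ↔ ∃ n, ∀ m ≥ n, InC A r (r'.vert m) := by
  constructor
  · rintro ⟨K, hK, ⟨n, hn⟩, ⟨n', hn'⟩⟩
    exact ⟨n', fun m hm => ⟨n, fun k hk => hK.joined (hn' m hm) (hn k hk)⟩⟩
  · rintro ⟨n, hn⟩
    obtain ⟨K, hK, a, ha⟩ := r.exists_tailIn hA
    refine ⟨K, hK, ⟨a, ha⟩, n, fun m hm => ?_⟩
    obtain ⟨b, hb⟩ := hn m hm
    exact hK.mem_of_joined (ha (max a b) (le_max_left _ _)) (hb (max a b) (le_max_right _ _)).symm

theorem equivalent_refl (r : Ray G) : r.Equivalent r := by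
  intro A hA
  obtain ⟨K, hK, h⟩ := r.exists_tailIn hA
  exact ⟨K, hK, h, h⟩

theorem equivalent_symm {r r' : Ray G} (h : r.Equivalent r') : r'.Equivalent r := by
  intro A hA
  obtain ⟨K, hK, h1, h2⟩ := h A hA
  exact ⟨K, hK, h2, h1⟩

theorem equivalent_trans {r r' r'' : Ray G} (h : r.Equivalent r') (h' : r'.Equivalent r'') :
    r.Equivalent r'' := by
  intro A hA
  obtain ⟨K, hK, h1, h2⟩ := h A hA
  obtain ⟨L, hL, h3, h4⟩ := h' A hA
  have : K = L := hK.eq_of_inter hL (h2.inter h3)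
  subst this
  exact ⟨K, hK, h1, h4⟩

end Ray

variable (G)

/-- The equivalence relation on rays. -/
def raySetoid : Setoid (Ray G) :=
  ⟨Ray.Equivalent, Ray.equivalent_refl, Ray.equivalent_symm, Ray.equivalent_trans⟩

/-- The ends of a graph: the equivalence classes of rays. -/
def GraphEndSpace : Type u := Quotient (raySetoid G)

variable {G}

/-- The end containing a ray. -/
def Ray.endOf (r : Ray G) : GraphEndSpace G := Quotient.mk (raySetoid G) r

variable (G)

/-- `{ω : K(A, ω) = K}`: the ends all of whose rays have a tail in `K`. -/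
def graphBasicOpen (K : Set V) : Set (GraphEndSpace G) :=
  {ω | ∀ r : Ray G, r.endOf = ω → r.TailIn K}

/-- The topology generated by the sets `{ω : K(A, ω) = K}`, `A` finite, `K` a component of
`G - A`. -/
instance : TopologicalSpace (GraphEndSpace G) :=
  TopologicalSpace.generateFrom
    {U | ∃ A K : Set V, A.Finite ∧ IsComp G A K ∧ U = graphBasicOpen G K}

end Pool.Agent.MP_6a92a8_co.H94
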