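import Mathlib
import Pool.Agent.Lib.MP_6a92a8_co.H94.Graph

set_option autoImplicit false

universe u v

namespace Pool.Agent.MP_6a92a8_co.H94

open Cardinal

/-- A `σ`-ideal of small subsets of `B`. -/
structure SmallIdeal (B : Type v) where
  /-- the small sets -/
  small : Set B → Prop
  mono : ∀ s t : Set B, s ⊆ t → small t → small s
  empty : small ∅
  iUnion : ∀ f : ℕ → Set B, (∀ n, small (f n)) → small (⋃ n, f n)

namespace SmallIdeal

variable {B : Type v} (I : SmallIdeal B)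

theorem union {s t : Set B} (hs : I.small s) (ht : I.small t) : I.small (s ∪ t) := by
  refine I.mono _ (⋃ n : ℕ, (if n = 0 then s else t)) ?_ (I.iUnion _ ?_)
  · rintro x (hx | hx)
    · exact Set.mem_iUnion.2 ⟨0, by simpa using hx⟩
    · exact Set.mem_iUnion.2 ⟨1, by simpa using hx⟩
  · intro n
    by_cases h : n = 0
    · simpa [h] using hs
    · simpa [h] using ht

theorem biUnion {α : Type u} {P : Set α} (hP : P.Countable) (f : α → Set B)
    (hf : ∀ a ∈ P, I.small (f a)) : I.small (⋃ a ∈ P, f a) := by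
  rcases P.eq_empty_or_nonempty with rfl | hne
  · simpa using I.empty
  · obtain ⟨g, rfl⟩ := hP.exists_eq_range hne
    rw [Set.biUnion_range]
    exact I.iUnion _ (fun n => hf _ (Set.mem_range_self n))

end SmallIdeal

/-- A family of finite sets indexed by a large set has a root: a finite set `R` contained in
largely many of them and such that every point outside `R` is in few of them. -/
theorem exists_root {B : Type v} {V : Type u} (I : SmallIdeal B) (hI : ¬ I.small Set.univ)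
    (X : B → Set V) (hX : ∀ i, (X i).Finite) :
    ∃ (R : Set V) (L : Set B), R.Finite ∧ ¬ I.small L ∧ (∀ i ∈ L, R ⊆ X i) ∧
      ∀ v ∉ R, I.small {i | i ∈ L ∧ v ∈ X i} := by
  -- fix the size
  have h1 : ∃ m : ℕ, ¬ I.small {i | (X i).ncard = m} := by
    by_contra hcon
    push Not at hcon
    apply hI
    refine I.mono _ _ ?_ (I.iUnion _ hcon)
    intro i _
    exact Set.mem_iUnion.2 ⟨(X i).ncard, rfl⟩
  obtain ⟨m, hm⟩ := h1
  by_contra hcon
  push Not at hcon
  have key : ∀ n : ℕ, ∃ R : Set V, R.Finite ∧ R.ncard = n ∧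
      ¬ I.small {i | (X i).ncard = m ∧ R ⊆ X i} := by
    intro n
    induction n with
    | zero => exact ⟨∅, Set.finite_empty, Set.ncard_empty V, by simpa using hm⟩
    | succ n ih =>
      obtain ⟨R, hR, hRn, hRs⟩ := ih
      obtain ⟨v, hv, hvs⟩ := hcon R {i | (X i).ncard = m ∧ R ⊆ X i} hR hRs (fun i hi => hi.2)
      refine ⟨insert v R, hR.insert v, ?_, ?_⟩
      · rw [Set.ncard_insert_of_notMem hv hR, hRn]
      · intro hs
        apply hvs
        refine I.mono _ _ ?_ hs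
        rintro i ⟨⟨h2, h3⟩, h4⟩
        exact ⟨h2, Set.insert_subset h4 h3⟩
  obtain ⟨R, hR, hRn, hRs⟩ := key (m + 1)
  apply hRs
  refine I.mono _ ∅ ?_ I.empty
  rintro i ⟨h2, h3⟩
  have := Set.ncard_le_ncard h3 (hX i)
  omega

variable {V : Type u} {G : SimpleGraph V}

theorem exists_pathSet (ρ : Ray G) {R : Set V} (hR : R.Finite) {v : V} (h : ρ.InC R v) :
    ∃ P : Set V, P.Countable ∧ ∀ A : Set V, A ∩ P ⊆ R → ρ.InC (A ∪ R) v := by
  obtain ⟨n₀, hn₀⟩ := ρ.eventually_not_mem hR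
  obtain ⟨n₁, hn₁⟩ := h
  obtain ⟨p, hp⟩ := hn₁ (max n₀ n₁) (le_max_right _ _)
  refine ⟨{z | z ∈ p.support} ∪ Set.range ρ.vert,
    (List.finite_toSet _).countable.union (Set.countable_range _), fun A hA => ?_⟩
  have h1 : Joined G (A ∪ R) v (ρ.vert (max n₀ n₁)) := by
    refine ⟨p, fun z hz hzA => ?_⟩
    rcases hzA with hzA | hzR
    · exact hp z hz (hA ⟨hzA, Or.inl hz⟩)
    · exact hp z hz hzR
  refine (ρ.inC_of_avoid (A := A ∪ R) (n := max n₀ n₁) ?_).of_joined h1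
  rintro m hm (hmA | hmR)
  · exact hn₀ m (le_trans (le_max_left _ _) hm) (hA ⟨hmA, Or.inr ⟨m, rfl⟩⟩)
  · exact hn₀ m (le_trans (le_max_left _ _) hm) hmR

/-- One countable set serving a finite set of starting vertices. -/
theorem exists_pathSet' (ρ : Ray G) {R : Set V} (hR : R.Finite) {Q : Set V} (hQ : Q.Finite) :
    ∃ P : Set V, P.Countable ∧ ∀ A : Set V, A ∩ P ⊆ R →
      ∀ q ∈ Q, ρ.InC R q → ρ.InC (A ∪ R) q := by
  classical
  have h1 : ∀ q, ∃ P : Set V, P.Countable ∧ (ρ.InC R q → ∀ A : Set V, A ∩ P ⊆ R →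
      ρ.InC (A ∪ R) q) := by
    intro q
    by_cases h : ρ.InC R q
    · obtain ⟨P, hP, hP'⟩ := exists_pathSet ρ hR h
      exact ⟨P, hP, fun _ => hP'⟩
    · exact ⟨∅, Set.countable_empty, fun h' => absurd h' h⟩
  choose P hP hP' using h1
  refine ⟨⋃ q ∈ Q, P q, hQ.countable.biUnion (fun q _ => hP q), fun A hA q hq h => ?_⟩
  apply hP' q h A
  refine subset_trans (Set.inter_subset_inter_right A ?_) hA
  exact Set.subset_biUnion_of_mem (u := P) hq

/-- If every vertex of `A` that `R` leaves with `ρ` is also left with it by `B`, and conversely,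
then no vertex that `R` leaves with `ρ` is separated from `ρ` by both `A` and `B`. -/
theorem absorb (ρ : Ray G) {R A B : Set V} (hR : R.Finite) (hA : A.Finite)
    (h1 : ∀ q ∈ A, ρ.InC R q → ρ.InC (B ∪ R) q)
    (h2 : ∀ q ∈ B, ρ.InC R q → ρ.InC (A ∪ R) q) {v : V} (hv : ρ.InC R v) :
    ρ.InC (A ∪ R) v ∨ ρ.InC (B ∪ R) v := by
  have key : ∀ {x y : V} (p : G.Walk x y), (∀ z ∈ p.support, z ∉ R) → ρ.InC R y →
      (ρ.InC (A ∪ R) y ∨ ρ.InC (B ∪ R) y) → ρ.InC R x ∧
        (ρ.InC (A ∪ R) x ∨ ρ.InC (B ∪ R) x) := by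
    intro x y p
    induction p with
    | nil => exact fun _ hy hP => ⟨hy, hP⟩
    | @cons a b c hab p ih =>
      intro hs hc hP
      obtain ⟨hb, hPb⟩ := ih (fun z hz => hs z (by simp [hz])) hc hP
      have haR : a ∉ R := hs a (by simp)
      have ha : ρ.InC R a := hb.of_joined (Joined.of_adj hab haR hb.not_mem)
      refine ⟨ha, ?_⟩
      by_cases haA : a ∈ A
      · exact Or.inr (h1 a haA ha)
      by_cases haB : a ∈ B
      · exact Or.inl (h2 a haB ha)
      rcases hPb with hPb | hPb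
      · left
        exact hPb.of_joined (Joined.of_adj hab (fun h => h.elim haA haR) hPb.not_mem)
      · right
        exact hPb.of_joined (Joined.of_adj hab (fun h => h.elim haB haR) hPb.not_mem)
  obtain ⟨n₀, hn₀⟩ := ρ.eventually_not_mem (hA.union hR)
  obtain ⟨n₁, hn₁⟩ := hv
  obtain ⟨p, hp⟩ := hn₁ (max n₀ n₁) (le_max_right _ _)
  have h3 : ρ.InC (A ∪ R) (ρ.vert (max n₀ n₁)) :=
    ρ.inC_of_avoid (fun m hm => hn₀ m (le_trans (le_max_left _ _) hm))
  exact (key p hp (h3.anti Set.subset_union_right) (Or.inl h3)).2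

/-- The combinatorial obstruction: in a graph, the ends `r i j` cannot be separated from `ρ` by
`X i` alone and by `X' j` alone, while every finite set `R` leaves them with `ρ` for all but
finitely many `i` and `j`. -/
theorem no_graph {B₁ B₂ : Type} (hB₁ : ¬ (Set.univ : Set B₁).Countable) (hB : #B₁ < #B₂)
    (ρ : Ray G) (r : B₁ → B₂ → Ray G) (X : B₁ → Set V) (hX : ∀ i, (X i).Finite)
    (X' : B₂ → Set V) (hX' : ∀ j, (X' j).Finite)
    (h1 : ∀ i j, ¬ ∃ n, ∀ m ≥ n, ρ.InC (X i) ((r i j).vert m))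
    (h2 : ∀ i j, ¬ ∃ n, ∀ m ≥ n, ρ.InC (X' j) ((r i j).vert m))
    (h3 : ∀ R : Set V, R.Finite → ∃ (I : Set B₁) (J : Set B₂), I.Finite ∧ J.Finite ∧
      ∀ i ∉ I, ∀ j ∉ J, ∃ n, ∀ m ≥ n, ρ.InC R ((r i j).vert m)) : False := by
  classical
  -- the two ideals
  let I₁ : SmallIdeal B₁ :=
    { small := Set.Countable
      mono := fun s t hst ht => ht.mono hst
      empty := Set.countable_empty
      iUnion := fun f hf => Set.countable_iUnion hf }
  have hinf : ℵ₀ ≤ #B₁ := by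
    rw [Set.countable_univ_iff] at hB₁
    rw [← not_lt]
    intro h
    apply hB₁
    rw [← Cardinal.mk_le_aleph0_iff]
    exact h.le
  have hunion : ∀ f : B₁ → Set B₂, (∀ i, #(f i) ≤ #B₁) → #(⋃ i, f i : Set B₂) ≤ #B₁ := by
    intro f hf
    calc #(⋃ i, f i : Set B₂) ≤ Cardinal.sum (fun i => #(f i)) := Cardinal.mk_iUnion_le_sum_mk
      _ ≤ Cardinal.sum (fun _ : B₁ => #B₁) := Cardinal.sum_le_sum _ _ hf
      _ = #B₁ * #B₁ := Cardinal.sum_const' _ _
      _ = #B₁ := Cardinal.mul_eq_self hinf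
  have hunionN : ∀ f : ℕ → Set B₂, (∀ i, #(f i) ≤ #B₁) → #(⋃ i, f i : Set B₂) ≤ #B₁ := by
    intro f hf
    calc #(⋃ i, f i : Set B₂) ≤ Cardinal.sum (fun i => #(f i)) := Cardinal.mk_iUnion_le_sum_mk
      _ ≤ Cardinal.sum (fun _ : ℕ => #B₁) := Cardinal.sum_le_sum _ _ hf
      _ = #ℕ * #B₁ := Cardinal.sum_const' _ _
      _ = #B₁ := by
        rw [Cardinal.mk_nat]
        exact Cardinal.aleph0_mul_eq hinf
  let I₂ : SmallIdeal B₂ :=
    { small := fun J => #J ≤ #B₁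
      mono := fun s t hst ht => (Cardinal.mk_le_mk_of_subset hst).trans ht
      empty := by simp
      iUnion := hunionN }
  have hfin₂ : ∀ J : Set B₂, J.Finite → I₂.small J := by
    intro J hJ
    have : #J ≤ ℵ₀ := Cardinal.mk_le_aleph0_iff.2 hJ.countable
    exact this.trans hinf
  obtain ⟨R₁, L₁, hR₁, hL₁, -, hroot₁⟩ := exists_root I₁ hB₁ X hX
  obtain ⟨R₂, L₂, hR₂, hL₂, -, hroot₂⟩ := exists_root I₂ (by
    show ¬ (#(Set.univ : Set B₂) ≤ #B₁)
    rw [Cardinal.mk_univ, not_le]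
    exact hB) X' hX'
  have hR : (R₁ ∪ R₂).Finite := hR₁.union hR₂
  obtain ⟨I, J, hI, hJ, hIJ⟩ := h3 (R₁ ∪ R₂) hR
  -- path sets for all `X i`
  have hP := fun i => exists_pathSet' ρ hR (hX i)
  choose P hPc hP' using hP
  -- choose `j`
  have hj : ∃ j ∈ L₂, j ∉ J ∧ ∀ i, X' j ∩ P i ⊆ R₁ ∪ R₂ := by
    by_contra hcon
    push Not at hcon
    apply hL₂
    have hbad : #(⋃ i, ⋃ v ∈ P i \ (R₁ ∪ R₂), {j | j ∈ L₂ ∧ v ∈ X' j} : Set B₂) ≤ #B₁ := by
      apply hunion
      intro i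
      refine I₂.biUnion ((hPc i).mono Set.sdiff_subset) _ ?_
      rintro v ⟨-, hv⟩
      exact hroot₂ v (fun h => hv (Or.inr h))
    refine I₂.mono _ _ ?_ (I₂.union (hfin₂ J hJ) hbad)
    intro j hj
    by_cases hjJ : j ∈ J
    · exact Or.inl hjJ
    · right
      obtain ⟨i, hi⟩ := hcon j hj hjJ
      rw [Set.not_subset] at hi
      obtain ⟨v, ⟨hv1, hv2⟩, hv3⟩ := hi
      refine Set.mem_iUnion.2 ⟨i, Set.mem_biUnion (⟨hv2, hv3⟩ : v ∈ P i \ (R₁ ∪ R₂)) ?_⟩
      exact ⟨hj, hv1⟩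
  obtain ⟨j, -, hjJ, hjP⟩ := hj
  obtain ⟨Q, hQc, hQ'⟩ := exists_pathSet' ρ hR (hX' j)
  -- choose `i`
  have hi : ∃ i ∈ L₁, i ∉ I ∧ X i ∩ Q ⊆ R₁ ∪ R₂ := by
    by_contra hcon
    push Not at hcon
    apply hL₁
    have hbad : I₁.small (⋃ v ∈ Q \ (R₁ ∪ R₂), {i | i ∈ L₁ ∧ v ∈ X i}) := by
      refine I₁.biUnion (hQc.mono Set.sdiff_subset) _ ?_
      rintro v ⟨-, hv⟩
      exact hroot₁ v (fun h => hv (Or.inl h))
    refine I₁.mono _ _ ?_ (I₁.union (show I₁.small I from hI.countable) hbad)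
    intro i hi
    by_cases hiI : i ∈ I
    · exact Or.inl hiI
    · right
      have hi' := hcon i hi hiI
      rw [Set.not_subset] at hi'
      obtain ⟨v, ⟨hv1, hv2⟩, hv3⟩ := hi'
      refine Set.mem_biUnion (⟨hv2, hv3⟩ : v ∈ Q \ (R₁ ∪ R₂)) ?_
      exact ⟨hi, hv1⟩
  obtain ⟨i, -, hiI, hiQ⟩ := hi
  obtain ⟨n, hn⟩ := hIJ i hiI j hjJ
  obtain ⟨n', hn'⟩ := (r i j).eventually_not_mem (((hX i).union (hX' j)).union hR)
  set m₀ := max n n' with hm₀
  have hav : ∀ m ≥ m₀, (r i j).vert m ∉ (X i ∪ X' j) ∪ (R₁ ∪ R₂) := fun m hm =>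
    hn' m (le_trans (le_max_right _ _) hm)
  have habs := absorb ρ hR (hX i) (fun q hq h => hP' i (X' j) (hjP i) q hq h)
    (fun q hq h => hQ' (X i) hiQ q hq h) (hn m₀ (le_max_left _ _))
  rcases habs with h | h
  · apply h1 i j
    refine ⟨m₀, fun m hm => ?_⟩
    have h4 : Joined G (X i ∪ (R₁ ∪ R₂)) ((r i j).vert m₀) ((r i j).vert m) :=
      (r i j).joined_of_avoid (fun k hk hkA => hav k hk (by
        rcases hkA with h5 | h5
        · exact Or.inl (Or.inl h5)
        · exact Or.inr h5)) m hm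
    exact (h.of_joined h4.symm).anti Set.subset_union_left
  · apply h2 i j
    refine ⟨m₀, fun m hm => ?_⟩
    have h4 : Joined G (X' j ∪ (R₁ ∪ R₂)) ((r i j).vert m₀) ((r i j).vert m) :=
      (r i j).joined_of_avoid (fun k hk hkA => hav k hk (by
        rcases hkA with h5 | h5
        · exact Or.inl (Or.inr h5)
        · exact Or.inr h5)) m hm
    exact (h.of_joined h4.symm).anti Set.subset_union_left

end Pool.Agent.MP_6a92a8_co.H94
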