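import Mathlib
import Pool.Agent.Lib.MP_6a92a8_co.H94.Defs

set_option autoImplicit false

universe u

namespace Pool.Agent.MP_6a92a8_co.H94

namespace Connectoid

variable {S : Type u} (c : Connectoid S)

/-- The component of `x` in `S'`. -/
def compOf (S' : Set S) (x : S) : Set S := {y | ∃ F ∈ c.fam, x ∈ F ∧ y ∈ F ∧ F ⊆ S'}

variable {c}

theorem IsConnected.of_fam {F : Set S} (hF : F ∈ c.fam) : c.IsConnected F :=
  fun _ hx _ hy => ⟨F, hF, hx, hy, subset_rfl⟩

theorem IsConnected.union {C D : Set S} (hC : c.IsConnected C) (hD : c.IsConnected D)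
    (h : (C ∩ D).Nonempty) : c.IsConnected (C ∪ D) := by
  obtain ⟨p, hpC, hpD⟩ := h
  have key : ∀ x ∈ C ∪ D, ∃ F ∈ c.fam, x ∈ F ∧ p ∈ F ∧ F ⊆ C ∪ D := by
    rintro x (hx | hx)
    · obtain ⟨F, hF, h1, h2, h3⟩ := hC x hx p hpC
      exact ⟨F, hF, h1, h2, h3.trans Set.subset_union_left⟩
    · obtain ⟨F, hF, h1, h2, h3⟩ := hD x hx p hpD
      exact ⟨F, hF, h1, h2, h3.trans Set.subset_union_right⟩
  intro x hx y hy
  obtain ⟨F, hF, h1, h2, h3⟩ := key x hx
  obtain ⟨F', hF', h1', h2', h3'⟩ := key y hy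
  exact ⟨F ∪ F', c.union_mem F hF F' hF' ⟨p, h2, h2'⟩, Or.inl h1, Or.inr h1',
    Set.union_subset h3 h3'⟩

theorem IsConnected.iUnion_ge {H : ℕ → Set S} (hH : ∀ n, c.IsConnected (H n))
    (hi : ∀ n, (H n ∩ H (n + 1)).Nonempty) (n₀ : ℕ) :
    c.IsConnected (⋃ n ≥ n₀, H n) := by
  have key : ∀ k, c.IsConnected (⋃ n ∈ Set.Icc n₀ (n₀ + k), H n) := by
    intro k
    induction k with
    | zero =>
      have : (⋃ n ∈ Set.Icc n₀ (n₀ + 0), H n) = H n₀ := by simp
      rw [this]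
      exact hH n₀
    | succ k ih =>
      have : (⋃ n ∈ Set.Icc n₀ (n₀ + (k + 1)), H n) =
          (⋃ n ∈ Set.Icc n₀ (n₀ + k), H n) ∪ H (n₀ + (k + 1)) := by
        ext x
        simp only [Set.mem_iUnion, Set.mem_Icc, Set.mem_union, exists_prop]
        constructor
        · rintro ⟨n, ⟨h1, h2⟩, h3⟩
          by_cases h : n ≤ n₀ + k
          · exact Or.inl ⟨n, ⟨h1, h⟩, h3⟩
          · have : n = n₀ + (k + 1) := by omega
            rw [this] at h3
            exact Or.inr h3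
        · rintro (⟨n, ⟨h1, h2⟩, h3⟩ | h3)
          · exact ⟨n, ⟨h1, by omega⟩, h3⟩
          · exact ⟨_, ⟨by omega, le_rfl⟩, h3⟩
      rw [this]
      apply ih.union (hH _)
      obtain ⟨p, hp1, hp2⟩ := hi (n₀ + k)
      refine ⟨p, ?_, hp2⟩
      simp only [Set.mem_iUnion, Set.mem_Icc, exists_prop]
      exact ⟨n₀ + k, ⟨by omega, le_rfl⟩, hp1⟩
  intro x hx y hy
  simp only [ge_iff_le, Set.mem_iUnion, exists_prop] at hx hy
  obtain ⟨a, ha, hxa⟩ := hx
  obtain ⟨b, hb, hyb⟩ := hy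
  obtain ⟨F, hF, h1, h2, h3⟩ := key (a + b) x (by
    simp only [Set.mem_iUnion, Set.mem_Icc, exists_prop]
    exact ⟨a, ⟨ha, by omega⟩, hxa⟩) y (by
    simp only [Set.mem_iUnion, Set.mem_Icc, exists_prop]
    exact ⟨b, ⟨hb, by omega⟩, hyb⟩)
  refine ⟨F, hF, h1, h2, h3.trans ?_⟩
  intro z hz
  simp only [Set.mem_iUnion, Set.mem_Icc, exists_prop] at hz
  obtain ⟨n, ⟨h4, -⟩, h5⟩ := hz
  simp only [ge_iff_le, Set.mem_iUnion, exists_prop]
  exact ⟨n, h4, h5⟩

theorem mem_compOf_self {S' : Set S} {x : S} (hx : x ∈ S') : x ∈ c.compOf S' x :=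
  ⟨{x}, c.singleton_mem x, rfl, rfl, by simpa using hx⟩

theorem subset_compOf {S' C : Set S} (hC : c.IsConnected C) (hS : C ⊆ S') {x : S} (hx : x ∈ C) :
    C ⊆ c.compOf S' x := by
  intro y hy
  obtain ⟨F, hF, h1, h2, h3⟩ := hC x hx y hy
  exact ⟨F, hF, h1, h2, h3.trans hS⟩

theorem compOf_subset (S' : Set S) (x : S) : c.compOf S' x ⊆ S' := by
  rintro y ⟨F, -, -, h2, h3⟩
  exact h3 h2

theorem isConnected_compOf (S' : Set S) (x : S) : c.IsConnected (c.compOf S' x) := by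
  rintro y ⟨F, hF, h1, h2, h3⟩ z ⟨F', hF', h1', h2', h3'⟩
  have hu : F ∪ F' ∈ c.fam := c.union_mem F hF F' hF' ⟨x, h1, h1'⟩
  exact ⟨F ∪ F', hu, Or.inl h2, Or.inr h2',
    subset_compOf (IsConnected.of_fam hu) (Set.union_subset h3 h3') (Or.inl h1)⟩

theorem isComponent_compOf {S' : Set S} {x : S} (hx : x ∈ S') :
    c.IsComponent S' (c.compOf S' x) := by
  refine ⟨⟨compOf_subset S' x, isConnected_compOf S' x⟩, ?_⟩
  rintro C ⟨hC1, hC2⟩ hle
  exact subset_compOf hC2 hC1 (hle (mem_compOf_self hx))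

theorem IsComponent.subset {S' K : Set S} (hK : c.IsComponent S' K) : K ⊆ S' := hK.1.1

theorem IsComponent.conn {S' K : Set S} (hK : c.IsComponent S' K) : c.IsConnected K := hK.1.2

/-- A connected subset meeting a component is contained in it. -/
theorem IsComponent.subset_of_inter {S' K C : Set S} (hK : c.IsComponent S' K)
    (hC : c.IsConnected C) (hS : C ⊆ S') (h : (C ∩ K).Nonempty) : C ⊆ K := by
  have h1 : c.IsConnected (K ∪ C) := hK.conn.union hC (by rwa [Set.inter_comm])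
  exact Set.subset_union_right.trans
    (hK.2 ⟨Set.union_subset hK.subset hS, h1⟩ Set.subset_union_left)

theorem IsComponent.eq_of_inter {S' K L : Set S} (hK : c.IsComponent S' K)
    (hL : c.IsComponent S' L) (h : (K ∩ L).Nonempty) : K = L :=
  (hL.subset_of_inter hK.conn hK.subset h).antisymm
    (hK.subset_of_inter hL.conn hL.subset (by rwa [Set.inter_comm]))

/-! ### Tails -/

theorem IsNecklace.infinite {N : Set S} (hN : c.IsNecklace N) : N.Infinite := by
  obtain ⟨-, H, rfl, -, hi⟩ := hN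
  have h1 : ∀ n, ∃ p, p ∈ H (2 * n) := fun n => by
    obtain ⟨p, hp, -⟩ := (hi (2 * n) (2 * n)).2 ⟨by omega, by omega⟩
    exact ⟨p, hp⟩
  choose p hp using h1
  apply Set.infinite_of_injective_forall_mem (f := p)
  · intro a b hab
    by_contra hne
    have h2 : (H (2 * a) ∩ H (2 * b)).Nonempty := ⟨p a, hp a, by rw [hab]; exact hp b⟩
    have := (hi _ _).1 h2
    omega
  · intro n
    exact Set.mem_iUnion.2 ⟨2 * n, hp n⟩

theorem exists_tail {N : Set S} (hN : c.IsNecklace N) {X : Set S} (hX : X.Finite) :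
    ∃ T, c.IsTail X N T := by
  obtain ⟨-, H, rfl, hH, hi⟩ := hN
  -- from some index on the beads avoid `X`
  have h1 : ∃ n₀, ∀ n ≥ n₀, Disjoint (H n) X := by
    induction X, hX using Set.Finite.induction_on with
    | empty => exact ⟨0, fun n _ => Set.disjoint_empty _⟩
    | @insert a X _ _ ih =>
      obtain ⟨n₀, hn₀⟩ := ih
      by_cases ha : ∃ m, a ∈ H m
      · obtain ⟨m, hm⟩ := ha
        refine ⟨max n₀ (m + 2), fun n hn => ?_⟩
        rw [Set.disjoint_insert_right]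
        refine ⟨fun han => ?_, hn₀ n (le_trans (le_max_left _ _) hn)⟩
        have h2 := (hi n m).1 ⟨a, han, hm⟩
        have h3 := le_trans (le_max_right n₀ (m + 2)) hn
        omega
      · refine ⟨n₀, fun n hn => ?_⟩
        rw [Set.disjoint_insert_right]
        exact ⟨fun han => ha ⟨n, han⟩, hn₀ n hn⟩
  obtain ⟨n₀, hn₀⟩ := h1
  have hconn : c.IsConnected (⋃ n ≥ n₀, H n) :=
    IsConnected.iUnion_ge (fun n => (hH n).2) (fun n => (hi n (n + 1)).2 ⟨by omega, by omega⟩) n₀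
  have hsub : (⋃ n ≥ n₀, H n) ⊆ (⋃ n, H n) \ X := by
    intro x hx
    simp only [ge_iff_le, Set.mem_iUnion, exists_prop] at hx
    obtain ⟨n, hn, hxn⟩ := hx
    exact ⟨Set.mem_iUnion.2 ⟨n, hxn⟩, fun hxX => Set.disjoint_left.1 (hn₀ n hn) hxn hxX⟩
  obtain ⟨p, hp, -⟩ := (hi n₀ n₀).2 ⟨by omega, by omega⟩
  have hp' : p ∈ ⋃ n ≥ n₀, H n := by
    simp only [ge_iff_le, Set.mem_iUnion, exists_prop]
    exact ⟨n₀, le_rfl, hp⟩
  refine ⟨c.compOf ((⋃ n, H n) \ X) p, isComponent_compOf (hsub hp'), ?_⟩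
  have hfin : (⋃ n ∈ Set.Iio n₀, H n).Finite :=
    (Set.finite_Iio n₀).biUnion (fun n _ => (hH n).1)
  refine hfin.subset ?_
  rintro x ⟨hx, hxT⟩
  obtain ⟨n, hxn⟩ := Set.mem_iUnion.1 hx
  by_cases hn : n < n₀
  · exact Set.mem_biUnion (by simpa using hn) hxn
  · exfalso
    apply hxT
    apply subset_compOf hconn hsub hp'
    simp only [ge_iff_le, Set.mem_iUnion, exists_prop]
    exact ⟨n, by omega, hxn⟩

theorem inter_nonempty_of_cofinite {N T T' : Set S} (hN : N.Infinite) (h : (N \ T).Finite)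
    (h' : (N \ T').Finite) : (T ∩ T').Nonempty := by
  have h1 : (N \ (N \ T ∪ N \ T')).Nonempty := (hN.sdiff (h.union h')).nonempty
  obtain ⟨x, hx, hx'⟩ := h1
  refine ⟨x, ?_, ?_⟩
  · by_contra hT
    exact hx' (Or.inl ⟨hx, hT⟩)
  · by_contra hT
    exact hx' (Or.inr ⟨hx, hT⟩)

theorem IsTail.eq {N X T T' : Set S} (hN : c.IsNecklace N) (h : c.IsTail X N T)
    (h' : c.IsTail X N T') : T = T' :=
  h.1.eq_of_inter h'.1 (inter_nonempty_of_cofinite hN.infinite h.2 h'.2)

theorem IsTail.nonempty {N X T : Set S} (hN : c.IsNecklace N) (h : c.IsTail X N T) :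
    T.Nonempty := by
  have := inter_nonempty_of_cofinite hN.infinite h.2 h.2
  rwa [Set.inter_self] at this

theorem IsTail.subset_compl {N X T : Set S} (h : c.IsTail X N T) : T ⊆ Xᶜ :=
  fun _ hx => (h.1.subset hx).2

theorem TailIn.inter {N X K L : Set S} (hN : c.IsNecklace N) (h : c.TailIn X N K)
    (h' : c.TailIn X N L) : (K ∩ L).Nonempty := by
  obtain ⟨T, hT, hTK⟩ := h
  obtain ⟨T', hT', hTL⟩ := h'
  obtain ⟨x, hx⟩ := hT.nonempty hN
  refine ⟨x, hTK hx, hTL ?_⟩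
  rw [← hT.eq hN hT']
  exact hx

theorem exists_comp_tailIn {N : Set S} (hN : c.IsNecklace N) {X : Set S} (hX : X.Finite) :
    ∃ K, c.IsComponent Xᶜ K ∧ c.TailIn X N K := by
  obtain ⟨T, hT⟩ := exists_tail hN hX
  obtain ⟨x, hx⟩ := hT.nonempty hN
  exact ⟨c.compOf Xᶜ x, isComponent_compOf (hT.subset_compl hx), T, hT,
    subset_compOf hT.1.conn hT.subset_compl hx⟩

/-- `TailIn` through cofinite containment. -/
theorem tailIn_of_cofinite {N X K : Set S} (hN : c.IsNecklace N) (hX : X.Finite)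
    (hK : c.IsComponent Xᶜ K) (h : (N \ K).Finite) : c.TailIn X N K := by
  obtain ⟨T, hT⟩ := exists_tail hN hX
  exact ⟨T, hT, hK.subset_of_inter hT.1.conn hT.subset_compl
    (inter_nonempty_of_cofinite hN.infinite hT.2 h)⟩

theorem equivalent_refl (N : c.Necklace) : c.Equivalent N N := by
  intro X hX
  obtain ⟨K, hK, hT⟩ := exists_comp_tailIn N.2 hX
  exact ⟨K, hK, hT, hT⟩

theorem equivalent_symm {N N' : c.Necklace} (h : c.Equivalent N N') : c.Equivalent N' N := by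
  intro X hX
  obtain ⟨K, hK, h1, h2⟩ := h X hX
  exact ⟨K, hK, h2, h1⟩

theorem equivalent_trans {N N' N'' : c.Necklace} (h : c.Equivalent N N')
    (h' : c.Equivalent N' N'') : c.Equivalent N N'' := by
  intro X hX
  obtain ⟨K, hK, h1, h2⟩ := h X hX
  obtain ⟨L, hL, h3, h4⟩ := h' X hX
  have : K = L := hK.eq_of_inter hL (h2.inter N'.2 h3)
  subst this
  exact ⟨K, hK, h1, h4⟩

variable (c)

/-- The equivalence relation on necklaces. -/
def necklaceSetoid : Setoid c.Necklace :=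
  ⟨c.Equivalent, equivalent_refl, equivalent_symm, equivalent_trans⟩

/-- The ends of a connectoid: the equivalence classes of necklaces. -/
def EndSpace : Type u := Quotient c.necklaceSetoid

/-- The end containing a necklace. -/
def endOf (N : c.Necklace) : c.EndSpace := Quotient.mk c.necklaceSetoid N

/-- `{ω : K(X, ω) = K}`: the ends all of whose necklaces have their `X`-tail in `K`. -/
def basicOpen (X K : Set S) : Set c.EndSpace :=
  {ω | ∀ N : c.Necklace, c.endOf N = ω → c.TailIn X N.1 K}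

/-- The topology generated by the sets `{ω : K(X, ω) = K}`, `X` finite, `K` a component of
`S \ X`. -/
instance : TopologicalSpace c.EndSpace :=
  TopologicalSpace.generateFrom
    {U | ∃ X K : Set S, X.Finite ∧ c.IsComponent Xᶜ K ∧ U = c.basicOpen X K}

end Connectoid

end Pool.Agent.MP_6a92a8_co.H94
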