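import Mathlib
import Pool.Agent.Lib.MP_6a92a8_co.H94.Conn

set_option autoImplicit false

universe u v

namespace Pool.Agent.MP_6a92a8_co.H94

/-- In a generated topology, a point-indexed family which is directed and refines the generating
sets at each point gives neighbourhood bases. -/
theorem local_base {Ω : Type u} {α : Type v} (B : Set (Set Ω)) (N : Set α → Ω → Set Ω)
    (h1 : ∀ U ∈ B, ∀ ω ∈ U, ∃ X : Set α, X.Finite ∧ N X ω ⊆ U)
    (h2 : ∀ X Y : Set α, X.Finite → Y.Finite → ∀ ω, N (X ∪ Y) ω ⊆ N X ω ∩ N Y ω)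
    (U : Set Ω) (hU : TopologicalSpace.GenerateOpen B U) :
    ∀ ω ∈ U, ∃ X : Set α, X.Finite ∧ N X ω ⊆ U := by
  induction hU with
  | basic s hs => exact h1 s hs
  | univ => exact fun ω _ => ⟨∅, Set.finite_empty, Set.subset_univ _⟩
  | inter s t _ _ ihs iht =>
    rintro ω ⟨hs, ht⟩
    obtain ⟨X, hX, hXs⟩ := ihs ω hs
    obtain ⟨Y, hY, hYt⟩ := iht ω ht
    refine ⟨X ∪ Y, hX.union hY, fun x hx => ?_⟩
    have := h2 X Y hX hY ω hx
    exact ⟨hXs this.1, hYt this.2⟩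
  | sUnion 𝒮 _ ih =>
    rintro ω ⟨s, hs, hω⟩
    obtain ⟨X, hX, hXs⟩ := ih s hs ω hω
    exact ⟨X, hX, hXs.trans (Set.subset_sUnion_of_mem hs)⟩

namespace Connectoid

variable {S : Type u} {c : Connectoid S}

theorem exists_rep (ω : c.EndSpace) : ∃ N : c.Necklace, c.endOf N = ω :=
  Quotient.exists_rep ω

theorem endOf_eq_iff (N M : c.Necklace) : c.endOf N = c.endOf M ↔ c.Equivalent N M :=
  ⟨fun h => Quotient.exact h, fun h => Quotient.sound h⟩

theorem mem_basicOpen_mk {X K : Set S} (hX : X.Finite) (hK : c.IsComponent Xᶜ K)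
    (N : c.Necklace) :
    c.endOf N ∈ c.basicOpen X K ↔ c.TailIn X N.1 K := by
  constructor
  · intro h
    exact h N rfl
  · intro h N' hN'
    have he : c.Equivalent N' N := (endOf_eq_iff _ _).1 hN'
    obtain ⟨L, hL, h1, h2⟩ := he X hX
    have : L = K := hL.eq_of_inter hK (h2.inter N.2 h)
    subst this
    exact h1

variable (c) in
/-- The ends living in the same component of `S \ X` as `ω`. -/
def nbhd (X : Set S) (ω : c.EndSpace) : Set c.EndSpace :=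
  {η | ∃ K, c.IsComponent Xᶜ K ∧ ω ∈ c.basicOpen X K ∧ η ∈ c.basicOpen X K}

theorem basicOpen_eq_nbhd {X K : Set S} (hX : X.Finite) (hK : c.IsComponent Xᶜ K)
    {ω : c.EndSpace} (hω : ω ∈ c.basicOpen X K) : c.nbhd X ω = c.basicOpen X K := by
  ext η
  constructor
  · rintro ⟨L, hL, h1, h2⟩
    obtain ⟨N, rfl⟩ := exists_rep ω
    have : L = K := hL.eq_of_inter hK
      (((mem_basicOpen_mk hX hL N).1 h1).inter N.2 ((mem_basicOpen_mk hX hK N).1 hω))
    subst this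
    exact h2
  · intro hη
    exact ⟨K, hK, hω, hη⟩

theorem exists_basicOpen {X : Set S} (hX : X.Finite) (ω : c.EndSpace) :
    ∃ K, c.IsComponent Xᶜ K ∧ ω ∈ c.basicOpen X K := by
  obtain ⟨N, rfl⟩ := exists_rep ω
  obtain ⟨K, hK, h⟩ := exists_comp_tailIn N.2 hX
  exact ⟨K, hK, (mem_basicOpen_mk hX hK N).2 h⟩

theorem isOpen_nbhd {X : Set S} (hX : X.Finite) (ω : c.EndSpace) : IsOpen (c.nbhd X ω) := by
  obtain ⟨K, hK, h⟩ := exists_basicOpen hX ω
  rw [basicOpen_eq_nbhd hX hK h]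
  exact TopologicalSpace.isOpen_generateFrom_of_mem ⟨X, K, hX, hK, rfl⟩

theorem mem_nbhd_self {X : Set S} (hX : X.Finite) (ω : c.EndSpace) : ω ∈ c.nbhd X ω := by
  obtain ⟨K, hK, h⟩ := exists_basicOpen hX ω
  exact ⟨K, hK, h, h⟩

/-- Tails decrease with `X`. -/
theorem TailIn.mono {N : Set S} (hN : c.IsNecklace N) {X Y K L : Set S} (hX : X.Finite)
    (hXY : X ⊆ Y) (hL : c.IsComponent Yᶜ L) (hK : c.IsComponent Xᶜ K) (h : c.TailIn Y N L)
    (hKL : (L ∩ K).Nonempty) : c.TailIn X N K := by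
  have hsub : L ⊆ K := hK.subset_of_inter hL.conn
    (hL.subset.trans (Set.compl_subset_compl.2 hXY)) hKL
  obtain ⟨T, hT, hTL⟩ := h
  apply tailIn_of_cofinite hN hX hK
  exact hT.2.subset (Set.sdiff_subset_sdiff_right (hTL.trans hsub))

theorem nbhd_mono {X Y : Set S} (hX : X.Finite) (hY : Y.Finite) (hXY : X ⊆ Y) (ω : c.EndSpace) :
    c.nbhd Y ω ⊆ c.nbhd X ω := by
  rintro η ⟨L, hL, h1, h2⟩
  obtain ⟨K, hK, h3⟩ := exists_basicOpen hX ω
  refine ⟨K, hK, h3, ?_⟩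
  obtain ⟨N, rfl⟩ := exists_rep ω
  obtain ⟨M, rfl⟩ := exists_rep η
  rw [mem_basicOpen_mk hY hL] at h1 h2
  rw [mem_basicOpen_mk hX hK] at h3 ⊢
  -- `L` meets `K`: both contain almost all of `N`
  have hint : (L ∩ K).Nonempty := by
    obtain ⟨T, hT, hTL⟩ := h1
    obtain ⟨T', hT', hTK⟩ := h3
    exact (inter_nonempty_of_cofinite N.2.infinite hT.2 hT'.2).mono
      (Set.inter_subset_inter hTL hTK)
  exact h2.mono M.2 hX hXY hL hK hint

/-- The sets `nbhd X ω`, `X` finite, form a neighbourhood base at `ω`. -/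
theorem exists_nbhd_subset {U : Set c.EndSpace} (hU : IsOpen U) {ω : c.EndSpace} (hω : ω ∈ U) :
    ∃ X : Set S, X.Finite ∧ c.nbhd X ω ⊆ U := by
  refine local_base _ c.nbhd ?_ ?_ U hU ω hω
  · rintro U ⟨X, K, hX, hK, rfl⟩ ω hω
    exact ⟨X, hX, (basicOpen_eq_nbhd hX hK hω).subset⟩
  · intro X Y hX hY ω
    exact Set.subset_inter (nbhd_mono hX (hX.union hY) Set.subset_union_left ω)
      (nbhd_mono hY (hX.union hY) Set.subset_union_right ω)

theorem mk_mem_nbhd_mk {X : Set S} (hX : X.Finite) (N M : c.Necklace) :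
    c.endOf M ∈ c.nbhd X (c.endOf N) ↔
      ∃ K, c.IsComponent Xᶜ K ∧ c.TailIn X N.1 K ∧ c.TailIn X M.1 K := by
  constructor
  · rintro ⟨K, hK, h1, h2⟩
    exact ⟨K, hK, (mem_basicOpen_mk hX hK N).1 h1, (mem_basicOpen_mk hX hK M).1 h2⟩
  · rintro ⟨K, hK, h1, h2⟩
    exact ⟨K, hK, (mem_basicOpen_mk hX hK N).2 h1, (mem_basicOpen_mk hX hK M).2 h2⟩

end Connectoid

end Pool.Agent.MP_6a92a8_co.H94
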