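import Mathlib
import Pool.Agent.Lib.MP_6a92a8_co.H94.Graph
import Pool.Agent.Lib.MP_6a92a8_co.H94.Top

set_option autoImplicit false

universe u

namespace Pool.Agent.MP_6a92a8_co.H94

variable {V : Type u} {G : SimpleGraph V}

namespace Ray

theorem endOf_eq_iff (r r' : Ray G) : r.endOf = r'.endOf ↔ r.Equivalent r' :=
  ⟨fun h => Quotient.exact h, fun h => Quotient.sound h⟩

theorem exists_rep (ω : GraphEndSpace G) : ∃ r : Ray G, r.endOf = ω := Quotient.exists_rep ω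

theorem endOf_mem {A K : Set V} (hA : A.Finite) (hK : IsComp G A K) (r : Ray G) :
    r.endOf ∈ graphBasicOpen G K ↔ r.TailIn K := by
  constructor
  · intro h
    exact h r rfl
  · intro h r' hr'
    obtain ⟨L, hL, h1, h2⟩ := (endOf_eq_iff r' r).1 hr' A hA
    have : L = K := hL.eq_of_inter hK (h2.inter h)
    subst this
    exact h1

end Ray

variable (G) in
/-- The ends living in the same component of `G - A` as `ω`. -/
def gnbhd (A : Set V) (ω : GraphEndSpace G) : Set (GraphEndSpace G) :=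
  {η | ∃ K, IsComp G A K ∧ ω ∈ graphBasicOpen G K ∧ η ∈ graphBasicOpen G K}

theorem gBasicOpen_eq_nbhd {A K : Set V} (hA : A.Finite) (hK : IsComp G A K)
    {ω : GraphEndSpace G} (hω : ω ∈ graphBasicOpen G K) :
    gnbhd G A ω = graphBasicOpen G K := by
  ext η
  constructor
  · rintro ⟨L, hL, h1, h2⟩
    obtain ⟨r, rfl⟩ := Ray.exists_rep ω
    have : L = K := hL.eq_of_inter hK
      (((Ray.endOf_mem hA hL r).1 h1).inter ((Ray.endOf_mem hA hK r).1 hω))
    subst this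
    exact h2
  · intro hη
    exact ⟨K, hK, hω, hη⟩

theorem exists_gBasicOpen {A : Set V} (hA : A.Finite) (ω : GraphEndSpace G) :
    ∃ K, IsComp G A K ∧ ω ∈ graphBasicOpen G K := by
  obtain ⟨r, rfl⟩ := Ray.exists_rep ω
  obtain ⟨K, hK, h⟩ := r.exists_tailIn hA
  exact ⟨K, hK, (Ray.endOf_mem hA hK r).2 h⟩

theorem isOpen_gnbhd {A : Set V} (hA : A.Finite) (ω : GraphEndSpace G) :
    IsOpen (gnbhd G A ω) := by
  obtain ⟨K, hK, h⟩ := exists_gBasicOpen hA ω
  rw [gBasicOpen_eq_nbhd hA hK h]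
  exact TopologicalSpace.isOpen_generateFrom_of_mem ⟨A, K, hA, hK, rfl⟩

theorem mem_gnbhd_self {A : Set V} (hA : A.Finite) (ω : GraphEndSpace G) :
    ω ∈ gnbhd G A ω := by
  obtain ⟨K, hK, h⟩ := exists_gBasicOpen hA ω
  exact ⟨K, hK, h, h⟩

theorem endOf_mem_gnbhd {A : Set V} (hA : A.Finite) (r r' : Ray G) :
    r'.endOf ∈ gnbhd G A r.endOf ↔ ∃ n, ∀ m ≥ n, r.InC A (r'.vert m) := by
  rw [← Ray.same_iff hA]
  constructor
  · rintro ⟨K, hK, h1, h2⟩
    exact ⟨K, hK, (Ray.endOf_mem hA hK r).1 h1, (Ray.endOf_mem hA hK r').1 h2⟩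
  · rintro ⟨K, hK, h1, h2⟩
    exact ⟨K, hK, (Ray.endOf_mem hA hK r).2 h1, (Ray.endOf_mem hA hK r').2 h2⟩

theorem gnbhd_mono {A B : Set V} (hA : A.Finite) (hB : B.Finite) (hAB : A ⊆ B)
    (ω : GraphEndSpace G) : gnbhd G B ω ⊆ gnbhd G A ω := by
  intro η hη
  obtain ⟨r, rfl⟩ := Ray.exists_rep ω
  obtain ⟨r', rfl⟩ := Ray.exists_rep η
  rw [endOf_mem_gnbhd hB] at hη
  rw [endOf_mem_gnbhd hA]
  obtain ⟨n, hn⟩ := hη
  exact ⟨n, fun m hm => (hn m hm).anti hAB⟩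

/-- The sets `gnbhd G A ω`, `A` finite, form a neighbourhood base at `ω`. -/
theorem exists_gnbhd_subset {U : Set (GraphEndSpace G)} (hU : IsOpen U) {ω : GraphEndSpace G}
    (hω : ω ∈ U) : ∃ A : Set V, A.Finite ∧ gnbhd G A ω ⊆ U := by
  refine local_base _ (gnbhd G) ?_ ?_ U hU ω hω
  · rintro U ⟨A, K, hA, hK, rfl⟩ ω hω
    exact ⟨A, hA, (gBasicOpen_eq_nbhd hA hK hω).subset⟩
  · intro A B hA hB ω
    exact Set.subset_inter (gnbhd_mono hA (hA.union hB) Set.subset_union_left ω)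
      (gnbhd_mono hB (hA.union hB) Set.subset_union_right ω)

end Pool.Agent.MP_6a92a8_co.H94
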