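import Mathlib
import Pool.Agent.Lib.MP_6a92a8_co.H94.GraphTop
import Pool.Agent.Lib.MP_6a92a8_co.H94.Comb

set_option autoImplicit false

universe u

namespace Pool.Agent.MP_6a92a8_co.H94

namespace Connectoid

variable {S : Type u} {c : Connectoid S}

/-- A sequence of distinct points with consecutive pairs in `𝓕` gives a necklace. -/
theorem isNecklace_range {s : ℕ → S} (hs : Function.Injective s)
    (hF : ∀ n, ({s n, s (n + 1)} : Set S) ∈ c.fam) : c.IsNecklace (Set.range s) := by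
  have hinter : ∀ i j, (({s i, s (i + 1)} : Set S) ∩ {s j, s (j + 1)}).Nonempty ↔
      (i ≤ j + 1 ∧ j ≤ i + 1) := by
    intro i j
    constructor
    · rintro ⟨x, hx1, hx2⟩
      simp only [Set.mem_insert_iff, Set.mem_singleton_iff] at hx1 hx2
      rcases hx1 with rfl | rfl <;> rcases hx2 with h | h <;>
        · have := hs h
          omega
    · rintro ⟨h1, h2⟩
      have h3 : i = j ∨ i = j + 1 ∨ j = i + 1 := by omega
      rcases h3 with rfl | rfl | rfl
      · exact ⟨s i, by simp, by simp⟩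
      · exact ⟨s (j + 1), by simp, by simp⟩
      · exact ⟨s (i + 1), by simp, by simp⟩
  have hU : Set.range s = ⋃ n, ({s n, s (n + 1)} : Set S) := by
    ext x
    simp only [Set.mem_range, Set.mem_iUnion, Set.mem_insert_iff, Set.mem_singleton_iff]
    constructor
    · rintro ⟨n, rfl⟩
      exact ⟨n, Or.inl rfl⟩
    · rintro ⟨n, rfl | rfl⟩
      · exact ⟨n, rfl⟩
      · exact ⟨n + 1, rfl⟩
  have hconn : c.IsConnected (⋃ n ≥ 0, ({s n, s (n + 1)} : Set S)) :=
    IsConnected.iUnion_ge (fun n => IsConnected.of_fam (hF n))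
      (fun n => (hinter n (n + 1)).2 ⟨by omega, by omega⟩) 0
  refine ⟨?_, fun n => {s n, s (n + 1)}, hU, fun n => ⟨by simp, IsConnected.of_fam (hF n)⟩,
    hinter⟩
  rw [hU]
  simpa using hconn

theorem isConnected_tail {s : ℕ → S} (hF : ∀ n, ({s n, s (n + 1)} : Set S) ∈ c.fam) (n : ℕ) :
    c.IsConnected (⋃ k ≥ n, ({s k, s (k + 1)} : Set S)) :=
  IsConnected.iUnion_ge (fun n => IsConnected.of_fam (hF n))
    (fun n => ⟨s (n + 1), by simp, by simp⟩) n

theorem tailIn_range_iff {s : ℕ → S} (hs : Function.Injective s)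
    (hN : c.IsNecklace (Set.range s)) {X K : Set S} (hX : X.Finite) (hK : c.IsComponent Xᶜ K) :
    c.TailIn X (Set.range s) K ↔ ∃ n, ∀ m ≥ n, s m ∈ K := by
  constructor
  · rintro ⟨T, hT, hTK⟩
    have h1 : (s ⁻¹' (Set.range s \ T)).Finite := hT.2.preimage hs.injOn
    obtain ⟨n, hn⟩ := h1.bddAbove
    refine ⟨n + 1, fun m hm => ?_⟩
    by_contra hmK
    have : m ∈ s ⁻¹' (Set.range s \ T) := ⟨⟨m, rfl⟩, fun h => hmK (hTK h)⟩
    have := hn this
    omega
  · rintro ⟨n, hn⟩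
    apply tailIn_of_cofinite hN hX hK
    refine ((Set.finite_Iio n).image s).subset ?_
    rintro _ ⟨⟨m, rfl⟩, hm⟩
    refine ⟨m, ?_, rfl⟩
    by_contra h
    simp only [Set.mem_Iio, not_lt] at h
    exact hm (hn m h)

end Connectoid

/-- The points of the example. -/
inductive Pt (B₁ B₂ : Type) : Type
  | z (n : ℕ) : Pt B₁ B₂
  | b (i : B₁) : Pt B₁ B₂
  | c (j : B₂) : Pt B₁ B₂
  | x (i : B₁) (j : B₂) (k : ℕ) : Pt B₁ B₂

variable {B₁ B₂ : Type}

open Pt

/-- The generating finite sets of the example. -/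
inductive Gen : Set (Pt B₁ B₂) → Prop
  | zz (n : ℕ) : Gen {z n, z (n + 1)}
  | xx (i : B₁) (j : B₂) (k : ℕ) : Gen {x i j k, x i j (k + 1)}
  | link (i : B₁) (j : B₂) (n : ℕ) : Gen {x i j 0, b i, c j, z n}

/-- The family `𝓕` of the example. -/
inductive Fam : Set (Pt B₁ B₂) → Prop
  | gen (F : Set (Pt B₁ B₂)) (h : Gen F) : Fam F
  | empty : Fam ∅
  | single (s : Pt B₁ B₂) : Fam {s}
  | union (F F' : Set (Pt B₁ B₂)) (h : Fam F) (h' : Fam F') (hi : (F ∩ F').Nonempty) :
      Fam (F ∪ F')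

theorem Fam.finite {F : Set (Pt B₁ B₂)} (h : Fam F) : F.Finite := by
  induction h with
  | gen F h =>
    cases h with
    | zz n => simp
    | xx i j k => simp
    | link i j n => simp
  | empty => exact Set.finite_empty
  | single s => exact Set.finite_singleton s
  | union F F' _ _ _ ih ih' => exact ih.union ih'

/-- The connectoid of the example. -/
def ex (B₁ B₂ : Type) : Connectoid (Pt B₁ B₂) where
  fam := {F | Fam F}
  finite_of_mem := fun _ h => Fam.finite h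
  union_mem := fun F h F' h' hi => Fam.union F F' h h' hi
  empty_mem := Fam.empty
  singleton_mem := Fam.single

theorem z_inj : Function.Injective (z : ℕ → Pt B₁ B₂) := fun a b h => by
  injection h

theorem x_inj (i : B₁) (j : B₂) : Function.Injective (x i j : ℕ → Pt B₁ B₂) := fun a b h => by
  injection h

theorem zz_mem (n : ℕ) : ({z n, z (n + 1)} : Set (Pt B₁ B₂)) ∈ (ex B₁ B₂).fam :=
  Fam.gen _ (Gen.zz n)

theorem xx_mem (i : B₁) (j : B₂) (n : ℕ) :
    ({x i j n, x i j (n + 1)} : Set (Pt B₁ B₂)) ∈ (ex B₁ B₂).fam :=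
  Fam.gen _ (Gen.xx i j n)

/-- The necklace of the points `z n`. -/
def zNecklace (B₁ B₂ : Type) : (ex B₁ B₂).Necklace :=
  ⟨Set.range z, Connectoid.isNecklace_range z_inj zz_mem⟩

/-- The necklace of the points `x i j k`. -/
def xNecklace (i : B₁) (j : B₂) : (ex B₁ B₂).Necklace :=
  ⟨Set.range (x i j), Connectoid.isNecklace_range (x_inj i j) (xx_mem i j)⟩

/-- A member of `𝓕` avoiding `b i` and containing some `x i j k` lies in `{x i j k' : k'}`. -/
theorem fam_avoid_b {F : Set (Pt B₁ B₂)} (h : Fam F) (i : B₁) (hb : b i ∉ F) (j : B₂) (k : ℕ)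
    (hx : x i j k ∈ F) : F ⊆ Set.range (x i j) := by
  induction h generalizing k with
  | gen F h =>
    cases h with
    | zz n => simp at hx
    | xx i' j' k' =>
      simp only [Set.mem_insert_iff, Set.mem_singleton_iff, x.injEq] at hx
      have h1 : i = i' ∧ j = j' := by
        rcases hx with h | h
        · exact ⟨h.1, h.2.1⟩
        · exact ⟨h.1, h.2.1⟩
      obtain ⟨rfl, rfl⟩ := h1
      rintro y (rfl | rfl)
      · exact ⟨_, rfl⟩
      · exact ⟨_, rfl⟩
    | link i' j' n =>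
      exfalso
      simp only [Set.mem_insert_iff, Set.mem_singleton_iff, x.injEq, reduceCtorEq,
        or_false] at hx
      apply hb
      rw [hx.1]
      simp
  | empty => exact absurd hx (Set.notMem_empty _)
  | single s =>
    rw [Set.mem_singleton_iff] at hx
    rintro y hy
    rw [Set.mem_singleton_iff] at hy
    exact ⟨k, by rw [hy, hx]⟩
  | union F F' _ _ hi ih ih' =>
    have hbF : b i ∉ F := fun h => hb (Or.inl h)
    have hbF' : b i ∉ F' := fun h => hb (Or.inr h)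
    obtain ⟨p, hp, hp'⟩ := hi
    rcases hx with hx | hx
    · have h1 := ih hbF k hx
      obtain ⟨k', rfl⟩ := h1 hp
      exact Set.union_subset h1 (ih' hbF' k' hp')
    · have h1 := ih' hbF' k hx
      obtain ⟨k', rfl⟩ := h1 hp'
      exact Set.union_subset (ih hbF k' hp) h1

/-- A member of `𝓕` avoiding `c j` and containing some `x i j k` lies in `{x i j k' : k'}`. -/
theorem fam_avoid_c {F : Set (Pt B₁ B₂)} (h : Fam F) (j : B₂) (hb : c j ∉ F) (i : B₁) (k : ℕ)
    (hx : x i j k ∈ F) : F ⊆ Set.range (x i j) := by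
  induction h generalizing k with
  | gen F h =>
    cases h with
    | zz n => simp at hx
    | xx i' j' k' =>
      simp only [Set.mem_insert_iff, Set.mem_singleton_iff, x.injEq] at hx
      have h1 : i = i' ∧ j = j' := by
        rcases hx with h | h
        · exact ⟨h.1, h.2.1⟩
        · exact ⟨h.1, h.2.1⟩
      obtain ⟨rfl, rfl⟩ := h1
      rintro y (rfl | rfl)
      · exact ⟨_, rfl⟩
      · exact ⟨_, rfl⟩
    | link i' j' n =>
      exfalso
      simp only [Set.mem_insert_iff, Set.mem_singleton_iff, x.injEq, reduceCtorEq,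
        or_false] at hx
      apply hb
      rw [hx.2.1]
      simp
  | empty => exact absurd hx (Set.notMem_empty _)
  | single s =>
    rw [Set.mem_singleton_iff] at hx
    rintro y hy
    rw [Set.mem_singleton_iff] at hy
    exact ⟨k, by rw [hy, hx]⟩
  | union F F' _ _ hi ih ih' =>
    have hbF : c j ∉ F := fun h => hb (Or.inl h)
    have hbF' : c j ∉ F' := fun h => hb (Or.inr h)
    obtain ⟨p, hp, hp'⟩ := hi
    rcases hx with hx | hx
    · have h1 := ih hbF k hx
      obtain ⟨k', rfl⟩ := h1 hp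
      exact Set.union_subset h1 (ih' hbF' k' hp')
    · have h1 := ih' hbF' k hx
      obtain ⟨k', rfl⟩ := h1 hp'
      exact Set.union_subset (ih hbF k' hp) h1

/-- The end `ω` of the example. -/
def omega (B₁ B₂ : Type) : (ex B₁ B₂).EndSpace := (ex B₁ B₂).endOf (zNecklace B₁ B₂)

/-- The ends `η i j` of the example. -/
def eta (i : B₁) (j : B₂) : (ex B₁ B₂).EndSpace := (ex B₁ B₂).endOf (xNecklace i j)

theorem eta_mem_nbhd_iff {X : Set (Pt B₁ B₂)} (hX : X.Finite) (i : B₁) (j : B₂) :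
    eta i j ∈ (ex B₁ B₂).nbhd X (omega B₁ B₂) ↔
      ∃ K, (ex B₁ B₂).IsComponent Xᶜ K ∧ (∃ n, ∀ m ≥ n, z m ∈ K) ∧ ∃ n, ∀ m ≥ n, x i j m ∈ K := by
  rw [omega, eta, Connectoid.mk_mem_nbhd_mk hX]
  constructor
  · rintro ⟨K, hK, h1, h2⟩
    exact ⟨K, hK, (Connectoid.tailIn_range_iff z_inj (zNecklace B₁ B₂).2 hX hK).1 h1,
      (Connectoid.tailIn_range_iff (x_inj i j) (xNecklace i j).2 hX hK).1 h2⟩
  · rintro ⟨K, hK, h1, h2⟩
    exact ⟨K, hK, (Connectoid.tailIn_range_iff z_inj (zNecklace B₁ B₂).2 hX hK).2 h1,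
      (Connectoid.tailIn_range_iff (x_inj i j) (xNecklace i j).2 hX hK).2 h2⟩

theorem eta_not_mem_b (i : B₁) (j : B₂) :
    eta i j ∉ (ex B₁ B₂).nbhd {b i} (omega B₁ B₂) := by
  rw [eta_mem_nbhd_iff (Set.finite_singleton _)]
  rintro ⟨K, hK, ⟨n, hn⟩, ⟨n', hn'⟩⟩
  obtain ⟨F, hF, h1, h2, h3⟩ := hK.conn _ (hn n le_rfl) _ (hn' n' le_rfl)
  have h4 : b i ∉ F := fun h => (hK.subset (h3 h)) rfl
  obtain ⟨k, hk⟩ := fam_avoid_b hF i h4 j n' h2 h1
  cases hk

theorem eta_not_mem_c (i : B₁) (j : B₂) :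
    eta i j ∉ (ex B₁ B₂).nbhd {c j} (omega B₁ B₂) := by
  rw [eta_mem_nbhd_iff (Set.finite_singleton _)]
  rintro ⟨K, hK, ⟨n, hn⟩, ⟨n', hn'⟩⟩
  obtain ⟨F, hF, h1, h2, h3⟩ := hK.conn _ (hn n le_rfl) _ (hn' n' le_rfl)
  have h4 : c j ∉ F := fun h => (hK.subset (h3 h)) rfl
  obtain ⟨k, hk⟩ := fam_avoid_c hF j h4 i n' h2 h1
  cases hk

/-- The first index of a point. -/
def fst : Pt B₁ B₂ → Option B₁
  | z _ => none
  | b i => some i
  | c _ => none
  | x i _ _ => some i

/-- The second index of a point. -/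
def snd : Pt B₁ B₂ → Option B₂
  | z _ => none
  | b _ => none
  | c j => some j
  | x _ j _ => some j

theorem exists_indices {X : Set (Pt B₁ B₂)} (hX : X.Finite) :
    ∃ (I : Set B₁) (J : Set B₂), I.Finite ∧ J.Finite ∧
      ∀ i ∉ I, ∀ j ∉ J, eta i j ∈ (ex B₁ B₂).nbhd X (omega B₁ B₂) := by
  refine ⟨{i | some i ∈ fst '' X}, {j | some j ∈ snd '' X},
    (hX.image fst).preimage ((Option.some_injective _).injOn),
    (hX.image snd).preimage ((Option.some_injective _).injOn), ?_⟩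
  intro i hi j hj
  rw [eta_mem_nbhd_iff hX]
  -- a tail of the `z n` avoids `X`
  have h1 : ∃ n, ∀ m ≥ n, (z m : Pt B₁ B₂) ∉ X := by
    have h2 : ((z : ℕ → Pt B₁ B₂) ⁻¹' X).Finite := hX.preimage z_inj.injOn
    obtain ⟨n, hn⟩ := h2.bddAbove
    refine ⟨n + 1, fun m hm hmX => ?_⟩
    have := hn hmX
    omega
  obtain ⟨n, hn⟩ := h1
  have hx : ∀ k, x i j k ∉ X := fun k hk => hi ⟨_, hk, rfl⟩
  have hb : b i ∉ X := fun h => hi ⟨_, h, rfl⟩
  have hc : c j ∉ X := fun h => hj ⟨_, h, rfl⟩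
  set Z : Set (Pt B₁ B₂) := ⋃ k ≥ n, {z k, z (k + 1)} with hZ
  set Y : Set (Pt B₁ B₂) := ⋃ k ≥ 0, {x i j k, x i j (k + 1)} with hY
  set L : Set (Pt B₁ B₂) := {x i j 0, b i, c j, z n} with hL
  have hzZ : ∀ m ≥ n, z m ∈ Z := fun m hm => Set.mem_biUnion hm (by simp)
  have hxY : ∀ k, x i j k ∈ Y := fun k => Set.mem_biUnion (Nat.zero_le k) (by simp)
  have hZX : Z ⊆ Xᶜ := by
    intro y hy
    simp only [hZ, ge_iff_le, Set.mem_iUnion, Set.mem_insert_iff, Set.mem_singleton_iff,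
      exists_prop] at hy
    obtain ⟨k, hk, rfl | rfl⟩ := hy
    · exact hn k hk
    · exact hn _ (by omega)
  have hYX : Y ⊆ Xᶜ := by
    intro y hy
    simp only [hY, ge_iff_le, Set.mem_iUnion, Set.mem_insert_iff, Set.mem_singleton_iff,
      exists_prop] at hy
    obtain ⟨k, -, rfl | rfl⟩ := hy
    · exact hx _
    · exact hx _
  have hLX : L ⊆ Xᶜ := by
    intro y hy
    simp only [hL, Set.mem_insert_iff, Set.mem_singleton_iff] at hy
    rcases hy with rfl | rfl | rfl | rfl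
    · exact hx 0
    · exact hb
    · exact hc
    · exact hn n le_rfl
  have hZc : (ex B₁ B₂).IsConnected Z := Connectoid.isConnected_tail zz_mem n
  have hYc : (ex B₁ B₂).IsConnected Y := Connectoid.isConnected_tail (xx_mem i j) 0
  have hLc : (ex B₁ B₂).IsConnected L :=
    Connectoid.IsConnected.of_fam (Fam.gen _ (Gen.link i j n))
  have h3 : (ex B₁ B₂).IsConnected (Z ∪ (L ∪ Y)) := by
    refine hZc.union (hLc.union hYc ⟨x i j 0, by simp [hL], hxY 0⟩) ⟨z n, hzZ n le_rfl, Or.inl ?_⟩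
    simp [hL]
  have h4 : Z ∪ (L ∪ Y) ⊆ (ex B₁ B₂).compOf Xᶜ (z n) :=
    Connectoid.subset_compOf h3 (Set.union_subset hZX (Set.union_subset hLX hYX))
      (Or.inl (hzZ n le_rfl))
  refine ⟨(ex B₁ B₂).compOf Xᶜ (z n), Connectoid.isComponent_compOf (hn n le_rfl),
    ⟨n, fun m hm => h4 (Or.inl (hzZ m hm))⟩, 0, fun m _ => h4 (Or.inr (Or.inr (hxY m)))⟩

open Cardinal in
/-- The end space of the example is not homeomorphic to the end space of any graph. -/
theorem ex_not_graph (hB₁ : ¬ (Set.univ : Set B₁).Countable) (hB : #B₁ < #B₂)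
    (V : Type u) (G : SimpleGraph V) :
    IsEmpty ((ex B₁ B₂).EndSpace ≃ₜ GraphEndSpace G) := by
  refine ⟨fun h => ?_⟩
  obtain ⟨ρ, hρ⟩ := Ray.exists_rep (h (omega B₁ B₂))
  have hr : ∀ i j, ∃ r : Ray G, r.endOf = h (eta i j) := fun i j => Ray.exists_rep _
  choose r hr using hr
  -- separators
  have hsep : ∀ X : Set (Pt B₁ B₂), X.Finite → ∃ A : Set V, A.Finite ∧
      gnbhd G A (h (omega B₁ B₂)) ⊆ h '' ((ex B₁ B₂).nbhd X (omega B₁ B₂)) := by
    intro X hX
    apply exists_gnbhd_subset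
    · exact h.isOpenMap _ (Connectoid.isOpen_nbhd hX _)
    · exact ⟨_, Connectoid.mem_nbhd_self hX _, rfl⟩
  have hX : ∀ i : B₁, ∃ A : Set V, A.Finite ∧
      gnbhd G A (h (omega B₁ B₂)) ⊆ h '' ((ex B₁ B₂).nbhd {b i} (omega B₁ B₂)) :=
    fun i => hsep _ (Set.finite_singleton _)
  have hX' : ∀ j : B₂, ∃ A : Set V, A.Finite ∧
      gnbhd G A (h (omega B₁ B₂)) ⊆ h '' ((ex B₁ B₂).nbhd {c j} (omega B₁ B₂)) :=
    fun j => hsep _ (Set.finite_singleton _)
  choose X hXf hXs using hX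
  choose X' hX'f hX's using hX'
  refine no_graph hB₁ hB ρ r X hXf X' hX'f ?_ ?_ ?_
  · intro i j hn
    have h1 : (r i j).endOf ∈ gnbhd G (X i) ρ.endOf := (endOf_mem_gnbhd (hXf i) ρ (r i j)).2 hn
    rw [hρ, hr] at h1
    obtain ⟨η, hη, hη'⟩ := hXs i h1
    rw [h.injective hη'] at hη
    exact eta_not_mem_b i j hη
  · intro i j hn
    have h1 : (r i j).endOf ∈ gnbhd G (X' j) ρ.endOf :=
      (endOf_mem_gnbhd (hX'f j) ρ (r i j)).2 hn
    rw [hρ, hr] at h1
    obtain ⟨η, hη, hη'⟩ := hX's j h1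
    rw [h.injective hη'] at hη
    exact eta_not_mem_c i j hη
  · intro R hR
    have hopen : IsOpen (h ⁻¹' gnbhd G R (h (omega B₁ B₂))) :=
      (isOpen_gnbhd hR _).preimage h.continuous
    obtain ⟨Z, hZ, hZs⟩ := Connectoid.exists_nbhd_subset hopen
      (show omega B₁ B₂ ∈ _ from mem_gnbhd_self hR _)
    obtain ⟨I, J, hI, hJ, hIJ⟩ := exists_indices hZ
    refine ⟨I, J, hI, hJ, fun i hi j hj => ?_⟩
    rw [← endOf_mem_gnbhd hR, hρ, hr]
    exact hZs (hIJ i hi j hj)

open Cardinal in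
/-- There is a connectoid whose end space is not homeomorphic to the end space of any graph. -/
theorem exists_connectoid_not_graph :
    ∃ (S : Type) (c : Connectoid S), ∀ (V : Type u) (G : SimpleGraph V),
      IsEmpty (c.EndSpace ≃ₜ GraphEndSpace G) := by
  refine ⟨Pt (Set ℕ) (Set (Set ℕ)), ex (Set ℕ) (Set (Set ℕ)), fun V G => ex_not_graph ?_ ?_ V G⟩
  · intro h
    rw [Set.countable_univ_iff, ← Cardinal.mk_le_aleph0_iff, Cardinal.mk_set,
      Cardinal.mk_nat] at h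
    exact absurd h (not_le.2 (Cardinal.cantor ℵ₀))
  · rw [Cardinal.mk_set (α := Set ℕ)]
    exact Cardinal.cantor _

end Pool.Agent.MP_6a92a8_co.H94
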